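import Pool.Agent.Helper43.UN.GoalsR

/-! Packet R6en of project UN (MP_d3128a_ag, helper43): number of the starts. Adapted from
`Pool/Agent/Helper75/UW/R6e.lean`. -/

set_option autoImplicit false

namespace Pool.Agent.Helper69.UN

open Finset
open Pool.Agent.Helper43.Hw (T na va aa)
open Pool.Agent.Helper18.UW (Par4 UPlay uz uo us GoalU4)
open Pool.Agent.Helper43.UN

theorem ukmonoN {m : ℕ → ℕ} {R N : ℕ} {κ x : ℕ → ℕ} (hp : UPlay m R N κ x) {y z : ℕ}
    (h : y ≤ z) (hz : z < R) : κ y ≤ κ z := by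
  induction z, h using Nat.le_induction with
  | base => exact le_rfl
  | succ z hz' ih => exact (ih (by omega)).trans (hp.mono z hz)

/-- The small parameters. -/
theorem smallN {m ms : ℕ → ℕ} {M Mb μ δ R A E0 βp βm N00 N0 N K b l Lg q v : ℕ} {ℓ : ℕ → ℕ}
    {W : ℤ} (hs : Su m ms M Mb μ δ R A E0 βp βm N00 N0 N K b l Lg q v ℓ W) :
    1 ≤ μ ∧ 1000 * δ ≤ μ ∧ 1000 * l ≤ μ := by
  have h1 := hs.par.b2
  have h2 := hs.par.b1
  have h3 := hs.par.L1
  have h4 := hs.par.l1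
  have h5 := hs.d1
  have h6 := hs.vb
  have h7 : 1 ≤ (q + 1) ^ 2 := Nat.one_le_pow _ _ (by omega)
  have hb : 1 ≤ b := by
    have : 2 ^ 42 * 1 ≤ 2 ^ 42 * Lg := Nat.mul_le_mul_left _ h3
    omega
  have h8 : 2 ^ 33 * (b * l) ≤ μ := by
    refine le_trans ?_ h1
    calc 2 ^ 33 * (b * l) = 2 ^ 33 * b * 1 * l := by ring
      _ ≤ 2 ^ 33 * b * (q + 1) ^ 2 * l := Nat.mul_le_mul_right _ (Nat.mul_le_mul_left _ h7)
  have h9 : l ≤ b * l := Nat.le_mul_of_pos_left _ hb
  refine ⟨by omega, by omega, by omega⟩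

theorem us_sumN {m ms : ℕ → ℕ} {M Mb μ δ R A E0 βp βm N00 N0 N K b l Lg q v Y : ℕ} {ℓ : ℕ → ℕ}
    {W : ℤ} {κ x : ℕ → ℕ} (hs : Su m ms M Mb μ δ R A E0 βp βm N00 N0 N K b l Lg q v ℓ W)
    (hb : Bx m M Mb μ R E0 N00 N0 N Y ℓ κ x)
    {z z' : ℕ} (hz : R ≤ z + 50 * μ) (hz' : z' ≤ Y) :
    ∑ y ∈ Ico z z', us m κ x y ≤ (z' - z) + μ := by
  have hp := hb.play
  have hYJ := hb.YJ
  have hRM := hs.sg.pf.R1
  have hμM := hs.sg.μM
  have hE1 := hs.sg.pf.E1
  have hMMb := hs.sg.pf.MMb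
  have hRE := hs.sg.pf.RE
  obtain ⟨hμ, -, -⟩ := smallN hs
  have hdisj : ∀ y ∈ Ico z z', ∀ y' ∈ Ico z z', y ≠ y' →
      Disjoint ((range y).filter (fun t => κ t < κ y ∧ 0 < x t ∧ m (κ t) + t = x t + y))
        ((range y').filter (fun t => κ t < κ y' ∧ 0 < x t ∧ m (κ t) + t = x t + y')) := by
    intro y _ y' _ hne
    rw [Finset.disjoint_left]
    intro t ht ht'
    have h1 := (mem_filter.1 ht).2.2.2
    have h2 := (mem_filter.1 ht').2.2.2
    omega
  unfold us
  rw [← Finset.card_biUnion hdisj]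
  have hsub : (Ico z z').biUnion
      (fun y => (range y).filter (fun t => κ t < κ y ∧ 0 < x t ∧ m (κ t) + t = x t + y)) ⊆
      Ico (z + 1 - μ) z' := by
    intro t ht
    obtain ⟨y, hy, ht⟩ := mem_biUnion.1 ht
    obtain ⟨hy1, hy2⟩ := mem_Ico.1 hy
    obtain ⟨ht1, ht2, ht3, ht4⟩ := mem_filter.1 ht
    have ht1 := mem_range.1 ht1
    have hκN : κ t < N := lt_of_lt_of_le ht2 (hp.le y (by omega))
    rw [mem_Ico]
    rcases Nat.lt_or_ge (κ t) N0 with h | h
    · exfalso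
      rcases Nat.lt_or_ge (κ t) N00 with h0 | h0
      · have hm := (hs.sg.pre0 (κ t) h0).2
        have h1 : ¬ R - E0 - 2 * Mb ≤ t := by
          intro hge
          have := ukmonoN hp hge (by omega)
          have := hb.n00
          omega
        omega
      · have hm := (hs.sg.pre (κ t) h0 h).2
        have h1 : ¬ R - 60 * M ≤ t := by
          intro hge
          have := ukmonoN hp hge (by omega)
          have := hb.n0
          omega
        omega
    · have hm := (hs.sg.main (κ t) h hκN).2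
      omega
  refine (Finset.card_le_card hsub).trans ?_
  rw [Nat.card_Ico]
  omega

theorem goalR6en (h4 : GoalU4) (h6a : GoalR6an) : GoalR6en := by
  intro m ms M Mb μ δ R A E0 βp βm N00 N0 N K b l Lg q v Y ℓ W κ x hs hb z z' hz hzz hz'
  have hp := hb.play
  have hYJ := hb.YJ
  have hRM := hs.sg.pf.R1
  have hM1 := hs.sg.pf.M1
  have hμM := hs.sg.μM
  have hE1 := hs.sg.pf.E1
  have hMMb := hs.sg.pf.MMb
  have hRE := hs.sg.pf.RE
  obtain ⟨hμ, hδ, hl⟩ := smallN hs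
  have hm1 : ∀ c < N, 1 ≤ m c ∧ m c + 2 ≤ R := by
    intro c hc
    rcases Nat.lt_or_ge c N0 with h | h
    · rcases Nat.lt_or_ge c N00 with h0 | h0
      · have := hs.sg.pre0 c h0
        omega
      · have := hs.sg.pre c h0 h
        omega
    · have := hs.sg.main c h hc
      omega
  have hn0 : ∀ y, R ≤ y + 50 * μ → y < R → N0 ≤ κ y := by
    intro y hy hyR
    exact hb.n0.trans (ukmonoN hp (by omega) hyR)
  have hκN : ∀ y ≤ Y, κ y < N := fun y hy => lt_of_le_of_lt (ukmonoN hp hy (by omega)) hb.kN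
  -- one step
  have hstep : ∀ y, R ≤ y + 50 * μ → y + 1 ≤ Y →
      ∑ c ∈ range (κ (y + 1)), m c + x (y + 1) ≤
        ∑ c ∈ range (κ y), m c + x y + (9 + uo m R κ x y + us m κ x y) := by
    intro y hy hyY
    have e1 := h4 m R N κ x hm1 (by omega) hp y (by omega) (by
      intro c hc hcN
      have h1 := (hs.sg.main c ((hn0 y hy (by omega)).trans hc) hcN).2
      unfold na
      omega)
    have e2 := hb.ex y (by omega)
    have e4 := hs.sg.pf.nine y (by omega) (by omega)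
    have e3 : uz m R N κ x (y + 1) ≤ ℓ (y + 1) := by
      rcases Nat.lt_or_ge (y + 1) Y with h | h
      · exact (hb.ex (y + 1) h).le
      · have : y + 1 = Y := by omega
        rw [this]
        exact hb.exY
    omega
  have hQ : ∀ z', z ≤ z' → z' ≤ Y →
      ∑ c ∈ range (κ z'), m c + x z' ≤
        ∑ c ∈ range (κ z), m c + x z + ∑ y ∈ Ico z z', (9 + uo m R κ x y + us m κ x y) := by
    intro z' hzz hz'
    induction z', hzz using Nat.le_induction with
    | base => simp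
    | succ y hy ih =>
      have e1 := hstep y (by omega) hz'
      have e2 := ih (by omega)
      rw [Finset.sum_Ico_succ_top hy]
      omega
  have hQ' := hQ z' hzz hz'
  -- the number of starts
  have hlo : ∑ c ∈ range (κ z), m c + x z ≤ ∑ c ∈ range (aa κ x z), m c := by
    unfold aa
    by_cases h : 0 < x z
    · rw [if_pos h, Finset.sum_range_succ]
      have := hp.lt z (by omega) (hκN z (by omega))
      omega
    · rw [if_neg h, add_zero]
      omega
  have hhi : ∑ c ∈ range (aa κ x z'), m c ≤ ∑ c ∈ range (κ z'), m c + x z' + μ := by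
    unfold aa
    by_cases h : 0 < x z'
    · rw [if_pos h, Finset.sum_range_succ]
      have := (hs.sg.main (κ z') (hn0 z' (by omega) (by omega)) (hκN z' hz')).2
      omega
    · rw [if_neg h, add_zero]
      omega
  have haN : aa κ x z' ≤ N := by
    have := hκN z' hz'
    unfold aa
    split_ifs <;> omega
  have haN0 : N0 ≤ aa κ x z := by
    have := hn0 z hz (by omega)
    unfold aa
    omega
  rcases Nat.lt_or_ge (aa κ x z') (aa κ x z) with hlt | hge
  · have : aa κ x z' - aa κ x z = 0 := by omega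
    rw [this, mul_zero]
    exact Nat.zero_le _
  have hcnt : (μ - δ) * (aa κ x z' - aa κ x z) + ∑ c ∈ range (aa κ x z), m c ≤
      ∑ c ∈ range (aa κ x z'), m c := by
    rw [← Finset.sum_range_add_sum_Ico _ hge, add_comm]
    refine Nat.add_le_add_left ?_ _
    have h1 : ∑ _c ∈ Ico (aa κ x z) (aa κ x z'), (μ - δ) ≤
        ∑ c ∈ Ico (aa κ x z) (aa κ x z'), m c := by
      refine Finset.sum_le_sum fun c hc => ?_
      obtain ⟨hc1, hc2⟩ := mem_Ico.1 hc
      have := (hs.main c (by omega) (by omega)).1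
      omega
    rw [Finset.sum_const, Nat.card_Ico, smul_eq_mul, mul_comm] at h1
    exact h1
  -- the sums
  have hsplit : ∑ y ∈ Ico z z', (9 + uo m R κ x y + us m κ x y) =
      9 * (z' - z) + ∑ y ∈ Ico z z', uo m R κ x y + ∑ y ∈ Ico z z', us m κ x y := by
    rw [Finset.sum_add_distrib, Finset.sum_add_distrib]
    simp [mul_comm]
  have hus := us_sumN hs hb hz hz'
  have huo : 10 * μ * ∑ y ∈ Ico z z', uo m R κ x y ≤ (z' - z) * (42 * A + 10 * μ) := by
    rw [Finset.mul_sum]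
    have h1 : ∀ y ∈ Ico z z', 10 * μ * uo m R κ x y ≤ 42 * A + 10 * μ := by
      intro y hy
      obtain ⟨hy1, hy2⟩ := mem_Ico.1 hy
      exact h6a m ms M Mb μ δ R A E0 βp βm N00 N0 N K b l Lg q v Y ℓ W κ x hs hb y (by omega)
        (by omega)
    refine (Finset.sum_le_sum h1).trans ?_
    rw [Finset.sum_const, Nat.card_Ico, smul_eq_mul]
  have hhiR := hs.hi
  -- arithmetic
  obtain ⟨G, hG⟩ : ∃ G, G = aa κ x z' - aa κ x z := ⟨_, rfl⟩
  obtain ⟨Dz, hDz⟩ : ∃ D, D = z' - z := ⟨_, rfl⟩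
  obtain ⟨O, hO⟩ : ∃ O, O = ∑ y ∈ Ico z z', uo m R κ x y := ⟨_, rfl⟩
  obtain ⟨S, hS⟩ : ∃ S, S = ∑ y ∈ Ico z z', us m κ x y := ⟨_, rfl⟩
  obtain ⟨B, hB⟩ : ∃ B, B = μ - δ := ⟨_, rfl⟩
  rw [← hG, ← hB] at hcnt
  rw [hsplit, ← hDz, ← hO, ← hS] at hQ'
  rw [← hS, ← hDz] at hus
  rw [← hO, ← hDz] at huo
  rw [← hG, ← hDz]
  have f1 : B * G ≤ μ + 9 * Dz + O + S := by omega
  have f2 : B * G ≤ 2 * μ + 10 * Dz + O := by omega
  have f3 : 999 * μ ≤ 1000 * B := by omega
  have g1 : μ * (10 * B * (l * G)) ≤ μ * (20 * l * μ + 110 * l * Dz + 1344 * Dz * μ) := by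
    calc μ * (10 * B * (l * G)) = 10 * μ * l * (B * G) := by ring
      _ ≤ 10 * μ * l * (2 * μ + 10 * Dz + O) := Nat.mul_le_mul_left _ f2
      _ = 20 * l * μ ^ 2 + 100 * μ * l * Dz + l * (10 * μ * O) := by ring
      _ ≤ 20 * l * μ ^ 2 + 100 * μ * l * Dz + l * (Dz * (42 * A + 10 * μ)) :=
          Nat.add_le_add_left (Nat.mul_le_mul_left _ huo) _
      _ = 20 * l * μ ^ 2 + 110 * μ * l * Dz + 42 * Dz * (l * A) := by ring
      _ ≤ 20 * l * μ ^ 2 + 110 * μ * l * Dz + 42 * Dz * (32 * μ ^ 2) :=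
          Nat.add_le_add_left (Nat.mul_le_mul_left _ hhiR) _
      _ = μ * (20 * l * μ + 110 * l * Dz + 1344 * Dz * μ) := by ring
  have g2 : 10 * B * (l * G) ≤ 20 * l * μ + 110 * l * Dz + 1344 * Dz * μ :=
    Nat.le_of_mul_le_mul_left g1 hμ
  have g3 : μ * (9990 * (l * G)) ≤ μ * (20000 * l + 1345000 * Dz) := by
    calc μ * (9990 * (l * G)) = 10 * (999 * μ) * (l * G) := by ring
      _ ≤ 10 * (1000 * B) * (l * G) := Nat.mul_le_mul_right _ (Nat.mul_le_mul_left _ f3)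
      _ = 1000 * (10 * B * (l * G)) := by ring
      _ ≤ 1000 * (20 * l * μ + 110 * l * Dz + 1344 * Dz * μ) := Nat.mul_le_mul_left _ g2
      _ = 20000 * l * μ + (1000 * l) * (110 * Dz) + 1344000 * Dz * μ := by ring
      _ ≤ 20000 * l * μ + μ * (110 * Dz) + 1344000 * Dz * μ := by
          gcongr
      _ ≤ μ * (20000 * l + 1345000 * Dz) := by nlinarith [Nat.zero_le (μ * Dz)]
  have g4 := Nat.le_of_mul_le_mul_left g3 hμ
  obtain ⟨X, hX⟩ : ∃ X, X = l * G := ⟨_, rfl⟩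
  rw [← hX] at g4 ⊢
  omega

end Pool.Agent.Helper69.UN
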