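import Pool.Agent.Helper5.UN.Goals
import Pool.Agent.Helper18.RO.HVAL
import Pool.Agent.Helper29.GC.Chord

/-!
# Project UN (MP_a41896_nt), packet ASM
-/

namespace Pool.Agent.Helper69.UN

open WeierstrassCurve Height Height.AdmissibleAbsValues MvPolynomial
open Pool.Agent.Helper29.BL Pool.Agent.Helper29.GC Pool.Agent.Helper5.RO Pool.Agent.Helper5.UN
open Pool.Agent.Helper18.RO

noncomputable section

/-- bound for quadratic forms -/
theorem hom2bd {K : Type} [Field K] [AdmissibleAbsValues K] (p : MvPolynomial (Fin 3) K)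
    (hp : p.IsHomogeneous 2) :
    ∃ c : AbsoluteValue K ℝ → ℝ, FS c ∧ (∀ v, 0 ≤ c v) ∧
      ∀ v (x : Fin 3 → K) (X : ℝ), (∀ i, v (x i) ≤ X) → v (eval x p) ≤ Real.exp (c v) * X ^ 2 := by
  classical
  have h1 : (1 : ℝ) ≤ (p.support.card : ℝ) + 1 := by
    have : (0 : ℝ) ≤ (p.support.card : ℝ) := Nat.cast_nonneg _
    linarith
  refine ⟨fun v => Real.log (cst v (p.support.card + 1)) +
    ∑ m ∈ p.support, Real.posLog (v (coeff m p)), ?_, ?_, ?_⟩
  · exact (FS_log_cst _).add (FS.sum _ fun m _ => FS_posLog _)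
  · intro v
    exact add_nonneg (Real.log_nonneg (one_le_cst v h1))
      (Finset.sum_nonneg fun _ _ => Real.posLog_nonneg)
  · intro v x X hX
    have hX0 : 0 ≤ X := (v.nonneg _).trans (hX 0)
    rw [Real.exp_add, Real.exp_log (cst_pos v h1), eval_eq']
    set E := Real.exp (∑ m ∈ p.support, Real.posLog (v (coeff m p))) with hE
    rw [mul_assoc]
    refine abv_sum_le v _ _ (by positivity) (fun m hm => ?_) (by linarith)
    rw [map_mul]
    refine mul_le_mul ?_ ?_ (v.nonneg _) (Real.exp_pos _).le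
    · have h2 : Real.posLog (v (coeff m p)) ≤ ∑ m ∈ p.support, Real.posLog (v (coeff m p)) :=
        Finset.single_le_sum (f := fun m => Real.posLog (v (coeff m p)))
          (fun _ _ => Real.posLog_nonneg) hm
      have h3 : v (coeff m p) ≤ Real.exp (Real.posLog (v (coeff m p))) := by
        rcases eq_or_lt_of_le (v.nonneg (coeff m p)) with h0 | h0
        · rw [← h0]; exact (Real.exp_pos _).le
        · conv_lhs => rw [← Real.exp_log h0]
          exact Real.exp_le_exp.2 (le_max_right _ _)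
      exact h3.trans (Real.exp_le_exp.2 h2)
    · rw [map_prod]
      have hd : ∑ i, m i = 2 := by
        have := hp (mem_support_iff.1 hm)
        rw [Finsupp.weight_apply, Finsupp.sum_fintype _ _ (by simp)] at this
        simpa using this
      calc ∏ i, v (x i ^ m i) ≤ ∏ i, X ^ m i := by
            refine Finset.prod_le_prod (fun i _ => v.nonneg _) fun i _ => ?_
            rw [map_pow]
            exact pow_le_pow_left₀ (v.nonneg _) (hX i) _
        _ = X ^ 2 := by rw [Finset.prod_pow_eq_pow_sum, hd]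

/-- maximum of three values -/
def m3 {K : Type} [Field K] (v : AbsoluteValue K ℝ) (x : Fin 3 → K) : ℝ :=
  max (v (x 0)) (max (v (x 1)) (v (x 2)))

theorem le_m3 {K : Type} [Field K] (v : AbsoluteValue K ℝ) (x : Fin 3 → K) (i : Fin 3) :
    v (x i) ≤ m3 v x := by
  fin_cases i
  · exact le_max_left _ _
  · exact (le_max_left _ _).trans (le_max_right _ _)
  · exact (le_max_right _ _).trans (le_max_right _ _)

theorem m3_nonneg {K : Type} [Field K] (v : AbsoluteValue K ℝ) (x : Fin 3 → K) : 0 ≤ m3 v x :=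
  (v.nonneg _).trans (le_m3 v x 0)

theorem exists_m3 {K : Type} [Field K] (v : AbsoluteValue K ℝ) (x : Fin 3 → K) :
    ∃ i, m3 v x = v (x i) := by
  rcases max_choice (v (x 0)) (max (v (x 1)) (v (x 2))) with h | h
  · exact ⟨0, h⟩
  · rcases max_choice (v (x 1)) (v (x 2)) with h' | h'
    · exact ⟨1, h.trans h'⟩
    · exact ⟨2, h.trans h'⟩

theorem asm_low (K : Type) [Field K] [AdmissibleAbsValues K] (W : WeierstrassCurve K)
    [W.IsElliptic] : ∃ c : AbsoluteValue K ℝ → ℝ, FS c ∧ (∀ v, 0 ≤ c v) ∧ ∀ v (x : Fin 3 → K),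
      m3 v x ^ 2 ≤ cst v 3 * Real.exp (c v) * m3 v (asm (RingHom.id K) W x) := by
  classical
  have hq : ∀ ij : Fin 3 × Fin 3,
      (C (↑W.Δ'⁻¹ : K) * addSubMapCoeff W ij).IsHomogeneous 2 := fun ij =>
    (isHomogeneous_addSubMapCoeff W ij).C_mul ↑W.Δ'⁻¹
  choose c hc hc0 hcb using fun ij => hom2bd _ (hq ij)
  refine ⟨fun v => ∑ ij, c ij v, FS.sum _ fun ij _ => hc ij,
    fun v => Finset.sum_nonneg fun ij _ => hc0 ij v, fun v x => ?_⟩
  set X := m3 v x with hX
  have hX0 : 0 ≤ X := m3_nonneg v x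
  set M := m3 v (asm (RingHom.id K) W x) with hM
  have hM0 : 0 ≤ M := m3_nonneg v _
  have hcst : 0 < cst v 3 := cst_pos v (by norm_num)
  obtain ⟨i, hi⟩ := exists_m3 v x
  have key : X ^ 4 ≤ cst v 3 * (Real.exp (∑ ij, c ij v) * X ^ 2 * M) := by
    have e := addSubMapCoeff_condition W x i
    have e2 : X ^ 4 = v (x i ^ 4) := by rw [map_pow, hX, hi]
    rw [e2, ← e]
    refine abv_sum_le v _ _ (by positivity) (fun j _ => ?_) (by simp)
    rw [map_mul]
    refine mul_le_mul ?_ ?_ (v.nonneg _) (by positivity)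
    · refine (hcb (i, j) v x X (le_m3 v x)).trans ?_
      refine mul_le_mul_of_nonneg_right (Real.exp_le_exp.2 ?_) (by positivity)
      exact Finset.single_le_sum (f := fun ij => c ij v) (fun ij _ => hc0 ij v)
        (Finset.mem_univ (i, j))
    · have h1 : (addSubMap W j).eval x = asm (RingHom.id K) W x j := by
        rw [asm_eval]
        congr 1
      rw [h1]
      exact le_m3 v _ j
  rcases eq_or_lt_of_le hX0 with h0 | h0
  · rw [← h0, zero_pow two_ne_zero]
    positivity
  · have h2 : X ^ 2 * X ^ 2 ≤ X ^ 2 * (cst v 3 * Real.exp (∑ ij, c ij v) * M) := by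
      calc X ^ 2 * X ^ 2 = X ^ 4 := by ring
        _ ≤ _ := key
        _ = _ := by ring
    exact le_of_mul_le_mul_left h2 (by positivity)

theorem sy_low {K : Type} [Field K] (v : AbsoluteValue K ℝ) (a b : Fin 2 → K) :
    max (v (a 0)) (v (a 1)) * max (v (b 0)) (v (b 1)) ≤ cst v 2 * m3 v (sy a b) := by
  have h2 : 1 ≤ cst v 2 := one_le_cst v (by norm_num)
  have hm0 := m3_nonneg v (sy a b)
  have l0 : v (a 0 * b 0) ≤ m3 v (sy a b) := le_m3 v (sy a b) 0
  have l1 : v (a 0 * b 1 + a 1 * b 0) ≤ m3 v (sy a b) := le_m3 v (sy a b) 1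
  have l2 : v (a 1 * b 1) ≤ m3 v (sy a b) := le_m3 v (sy a b) 2
  have hself : m3 v (sy a b) ≤ cst v 2 * m3 v (sy a b) := by nlinarith
  by_cases ha : a 1 = 0
  · rw [ha, map_zero, max_eq_left (v.nonneg _)]
    rw [ha, zero_mul, add_zero] at l1
    refine le_trans ?_ hself
    rcases max_choice (v (b 0)) (v (b 1)) with h | h
    · rw [h, ← map_mul]; exact l0
    · rw [h, ← map_mul]; exact l1
  by_cases hb : b 1 = 0
  · rw [hb, map_zero, max_eq_left (v.nonneg _)]
    rw [hb, mul_zero, zero_add] at l1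
    refine le_trans ?_ hself
    rcases max_choice (v (a 0)) (v (a 1)) with h | h
    · rw [h, ← map_mul]; exact l0
    · rw [h, ← map_mul]; exact l1
  have h := Mv_mul_le v (a 0 / a 1) (b 0 / b 1)
  have ea : max (v (a 0)) (v (a 1)) = v (a 1) * Mv v (a 0 / a 1) := by
    rw [Mv, mul_max_of_nonneg _ _ (v.nonneg _), mul_one, ← map_mul, mul_div_cancel₀ _ ha,
      max_comm]
  have eb : max (v (b 0)) (v (b 1)) = v (b 1) * Mv v (b 0 / b 1) := by
    rw [Mv, mul_max_of_nonneg _ _ (v.nonneg _), mul_one, ← map_mul, mul_div_cancel₀ _ hb,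
      max_comm]
  have hpos : 0 ≤ v (a 1) * v (b 1) := mul_nonneg (v.nonneg _) (v.nonneg _)
  calc max (v (a 0)) (v (a 1)) * max (v (b 0)) (v (b 1))
      = v (a 1) * v (b 1) * (Mv v (a 0 / a 1) * Mv v (b 0 / b 1)) := by rw [ea, eb]; ring
    _ ≤ v (a 1) * v (b 1) * (cst v 2 * max 1 (max (v (a 0 / a 1 + b 0 / b 1))
        (v (a 0 / a 1 * (b 0 / b 1))))) := mul_le_mul_of_nonneg_left h hpos
    _ = cst v 2 * (v (a 1) * v (b 1) * max 1 (max (v (a 0 / a 1 + b 0 / b 1))
        (v (a 0 / a 1 * (b 0 / b 1))))) := by ring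
    _ ≤ cst v 2 * m3 v (sy a b) := by
      refine mul_le_mul_of_nonneg_left ?_ (by linarith)
      rw [mul_max_of_nonneg _ _ hpos, mul_max_of_nonneg _ _ hpos, mul_one]
      refine max_le ?_ (max_le ?_ ?_)
      · rw [← map_mul]; exact l2
      · rw [← map_mul, ← map_mul]
        have e : a 1 * b 1 * (a 0 / a 1 + b 0 / b 1) = a 0 * b 1 + a 1 * b 0 := by
          field_simp
        rw [e]; exact l1
      · rw [← map_mul, ← map_mul]
        have e : a 1 * b 1 * (a 0 / a 1 * (b 0 / b 1)) = a 0 * b 0 := by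
          field_simp
        rw [e]; exact l0

theorem gASM : G_ASM := by
  refine ⟨?_, ?_, ?_, ?_, ?_⟩
  · intro K F _ _ _ φ W _ W' hW' P Q
    subst hW'
    obtain ⟨γ, hγ, h3⟩ := addSub_correct add dbl xeq F (W.map φ) P Q
    refine ⟨γ, hγ, ?_⟩
    funext j
    rw [asm_eval]
    exact congrFun h3 j
  · intro R S _ _ φ W k l v a b
    constructor
    · funext j
      have := asm_smul φ W k v j
      exact this
    · funext j
      fin_cases j <;> simp [sy] <;> ring
  · intro K F _ _ φ W _ v hv h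
    refine addSubMap_ne_zero (W.map φ) hv ?_
    funext j
    rw [← asm_eval, h]
  · intro F _ a b c ha hb hc
    have ne2 : ∀ x : Fin 2 → F, x ≠ 0 → x 0 ≠ 0 ∨ x 1 ≠ 0 := by
      intro x hx
      by_contra hcon
      push Not at hcon
      apply hx
      funext i
      fin_cases i
      · exact hcon.1
      · exact hcon.2
    constructor
    · intro h
      have h0 : a 0 * b 0 = 0 := congrFun h 0
      have h1 : a 0 * b 1 + a 1 * b 0 = 0 := congrFun h 1
      have h2 : a 1 * b 1 = 0 := congrFun h 2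
      rcases ne2 a ha with h3 | h3
      · have hb0 : b 0 = 0 := (mul_eq_zero.1 h0).resolve_left h3
        rw [hb0, mul_zero, add_zero] at h1
        have hb1 : b 1 = 0 := (mul_eq_zero.1 h1).resolve_left h3
        rcases ne2 b hb with h4 | h4
        · exact h4 hb0
        · exact h4 hb1
      · have hb1 : b 1 = 0 := (mul_eq_zero.1 h2).resolve_left h3
        rw [hb1, mul_zero, zero_add] at h1
        have hb0 : b 0 = 0 := (mul_eq_zero.1 h1).resolve_left h3
        rcases ne2 b hb with h4 | h4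
        · exact h4 hb0
        · exact h4 hb1
    · intro h
      have h01 : a 0 * b 0 * (a 0 * c 1 + a 1 * c 0) = (a 0 * b 1 + a 1 * b 0) * (a 0 * c 0) :=
        h 0 1
      have h12 : (a 0 * b 1 + a 1 * b 0) * (a 1 * c 1) = a 1 * b 1 * (a 0 * c 1 + a 1 * c 0) :=
        h 1 2
      rcases ne2 a ha with h3 | h3
      · have e : a 0 ^ 2 * (b 0 * c 1 - b 1 * c 0) = 0 := by linear_combination h01
        exact sub_eq_zero.1 ((mul_eq_zero.1 e).resolve_left (pow_ne_zero 2 h3))
      · have e : a 1 ^ 2 * (b 0 * c 1 - b 1 * c 0) = 0 := by linear_combination h12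
        exact sub_eq_zero.1 ((mul_eq_zero.1 e).resolve_left (pow_ne_zero 2 h3))
  · intro K _ _ W _
    obtain ⟨c, hc, hc0, hb⟩ := asm_low K W
    have h3 : ∀ v : AbsoluteValue K ℝ, 1 ≤ cst v 3 := fun v => one_le_cst v (by norm_num)
    have h4 : ∀ v : AbsoluteValue K ℝ, 1 ≤ cst v 4 := fun v => one_le_cst v (by norm_num)
    refine ⟨fun v => Real.log (cst v 4) + Real.log (cst v 3) + c v,
      ((FS_log_cst _).add (FS_log_cst _)).add hc, fun v => ?_, fun v a b => ?_⟩
    · have := Real.log_nonneg (h3 v)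
      have := Real.log_nonneg (h4 v)
      have := hc0 v
      positivity
    · have h1 := sy_low v a b
      have h2 := hb v (sy a b)
      have hN : 0 ≤ max (v (a 0)) (v (a 1)) * max (v (b 0)) (v (b 1)) :=
        mul_nonneg ((v.nonneg _).trans (le_max_left _ _)) ((v.nonneg _).trans (le_max_left _ _))
      have e4 : cst v 4 = cst v 2 ^ 2 := by rw [← cst_pow]; norm_num
      rw [Real.exp_add, Real.exp_add, Real.exp_log (by linarith [h4 v]),
        Real.exp_log (by linarith [h3 v])]
      calc (max (v (a 0)) (v (a 1)) * max (v (b 0)) (v (b 1))) ^ 2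
          ≤ (cst v 2 * m3 v (sy a b)) ^ 2 := pow_le_pow_left₀ hN h1 2
        _ = cst v 4 * m3 v (sy a b) ^ 2 := by rw [e4]; ring
        _ ≤ cst v 4 * (cst v 3 * Real.exp (c v) * m3 v (asm (RingHom.id K) W (sy a b))) :=
            mul_le_mul_of_nonneg_left h2 (by linarith [h4 v])
        _ = _ := by rw [m3]; ring

end

end Pool.Agent.Helper69.UN
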