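import Pool.Agent.Helper69.UN.ZD

set_option autoImplicit false

namespace Pool.Agent.Helper69.UN

open Pool.Agent.Helper52.Wq2
open Pool.Agent.Helper61.NW

universe u

/-- The centralizer of `z` satisfies `Big2` if it contains `w` independent of `z` and `⟨z, w⟩` has
infinite index in it. -/
theorem big_centralizer {Γ : Type u} [Group Γ] (z w : Γ) (hzw : w * z = z * w)
    (hind : ∀ i j : ℤ, w ^ i * z ^ j = 1 → i = 0 ∧ j = 0)
    (hidx : ¬ ((Subgroup.closure {z, w}).subgroupOf
      (Subgroup.centralizer ({z} : Set Γ))).FiniteIndex) :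
    Big2 (Subgroup.centralizer ({z} : Set Γ)) := by
  have hz : z ∈ Subgroup.centralizer ({z} : Set Γ) := by
    rw [Subgroup.mem_centralizer_singleton_iff]
  have hw : w ∈ Subgroup.centralizer ({z} : Set Γ) := by
    rw [Subgroup.mem_centralizer_singleton_iff]
    exact hzw
  refine ⟨⟨z, hz⟩, ⟨w, hw⟩, Subtype.ext hzw, ?_, ?_, ?_⟩
  · intro i j h
    have h1 := congrArg Subtype.val h
    exact hind i j h1
  · refine (Set.finite_singleton (⟨z, hz⟩ : Subgroup.centralizer ({z} : Set Γ))).subset ?_
    rintro _ ⟨g, rfl⟩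
    refine Subtype.ext ?_
    have h1 := Subgroup.mem_centralizer_singleton_iff.1 g.2
    show g.1⁻¹ * z * g.1 = z
    rw [mul_assoc, ← h1, inv_mul_cancel_left]
  · intro h
    refine hidx ?_
    have h1 : (Subgroup.closure {z, w}).subgroupOf (Subgroup.centralizer ({z} : Set Γ)) =
        Subgroup.closure {⟨z, hz⟩, ⟨w, hw⟩} := by
      have h2 : Subgroup.map (Subgroup.centralizer ({z} : Set Γ)).subtype
          (Subgroup.closure {⟨z, hz⟩, ⟨w, hw⟩}) = Subgroup.closure {z, w} := by
        rw [MonoidHom.map_closure, Set.image_pair]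
        rfl
      rw [← h2]
      exact Subgroup.comap_map_eq_self_of_injective (Subgroup.subtype_injective _) _
    rw [h1]
    exact h

end Pool.Agent.Helper69.UN
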