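import Pool.Agent.Helper43.UN.GoalsF
import Pool.Agent.Helper2.EW.GT

/-!
# UN-GN: gluing at a corner triangle
-/

set_option autoImplicit false

namespace Pool.Agent.Helper69.UN

open Finset
open Pool.Agent.Lead.Sh
open Pool.Agent.Helper18.EW (GoalCP)
open Pool.Agent.Helper2.EW (ker_dim)
open Pool.Agent.Helper43.UN

/-- the cells of the triangle and the cells above, the diagonal counted twice -/
theorem card_split {D : Finset (ℕ × ℕ)} {e : ℕ} (hTD : triD 0 e ⊆ D) :
    (triD 0 e).card + (D.filter (fun x => e ≤ x.1 + x.2)).card = D.card + (e + 1) := by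
  classical
  have h1 : triD 0 e ∪ D.filter (fun x => e ≤ x.1 + x.2) = D := by
    ext x
    rw [mem_union, mem_filter]
    constructor
    · rintro (h | h)
      · exact hTD h
      · exact h.1
    · intro h
      by_cases hx : e ≤ x.1 + x.2
      · exact Or.inr ⟨h, hx⟩
      · left
        rw [mem_triD]
        omega
  have h2 : triD 0 e ∩ D.filter (fun x => e ≤ x.1 + x.2) =
      (range (e + 1)).image (fun i => (i, e - i)) := by
    ext x
    rw [mem_inter, mem_filter, mem_triD, mem_image]
    constructor
    · rintro ⟨h, -, h'⟩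
      refine ⟨x.1, by rw [mem_range]; omega, ?_⟩
      ext
      · rfl
      · simp only
        omega
    · rintro ⟨i, hi, rfl⟩
      rw [mem_range] at hi
      have h3 : (i, e - i) ∈ triD 0 e := by
        rw [mem_triD]
        simp only
        omega
      refine ⟨?_, hTD h3, ?_⟩
      · simp only
        omega
      · simp only
        omega
  have h3 : ((range (e + 1)).image (fun i => (i, e - i))).card = e + 1 := by
    rw [card_image_of_injective, card_range]
    intro a b hab
    exact (Prod.mk.inj hab).1
  have h4 := card_union_add_card_inter (triD 0 e) (D.filter (fun x => e ≤ x.1 + x.2))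
  rw [h1, h2, h3] at h4
  omega

theorem goalGN : GoalGN := by
  classical
  intro hCP hGNa hGNt m D e s t he hTD hst hIt hJt hIs hJs hcard
  obtain ⟨P1, hP1, hP1'⟩ := hCP.1 _ _ _ _ hIs hJs
  set De := D.filter (fun x => e ≤ x.1 + x.2) with hDe
  have hk := ker_dim De (rows m s) P1 hP1
  set M : Matrix (rows m s) De ℂ := Matrix.of
    (fun (r : rows m s) (d : De) => E r.1.2 d.1 (P1 r.1.1).1 (P1 r.1.1).2) with hM
  set Ψ : (De → ℂ) →ₗ[ℂ] Polynomial ℂ := Fintype.linearCombination ℂ
    (fun d : De => if d.1.1 + d.1.2 = e then (Polynomial.X : Polynomial ℂ) ^ d.1.1 else 0) with hΨ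
  set V := (LinearMap.ker (Matrix.toLin' M)).map Ψ with hV
  have hcnt := card_split hTD
  rw [← hDe] at hcnt
  have hun : (rows m (s ∪ t)).card ≤ (rows m s).card + (rows m t).card := by
    rw [rows_union]
    exact card_union_le _ _
  have hVk : Module.finrank ℂ V ≤ Module.finrank ℂ (LinearMap.ker (Matrix.toLin' M)) :=
    Submodule.finrank_map_le _ _
  obtain ⟨P2, hP2⟩ := hGNt m e t V he hIt hJt inferInstance (by omega)
  have hfilt : D.filter (fun x => x.1 + x.2 ≤ e) = triD 0 e := by
    ext x
    rw [mem_filter, mem_triD]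
    constructor
    · rintro ⟨-, h⟩
      omega
    · intro h
      exact ⟨hTD (by rw [mem_triD]; omega), by omega⟩
  rw [rows_union]
  refine hGNa D (rows m s) (rows m t) e P1 P2 (rows_disj m s t hst) ?_
  intro c hc1 hc2
  rw [hfilt] at hc2
  have hG : (∑ i ∈ range (e + 1), Polynomial.C (c (i, e - i)) * Polynomial.X ^ i) ∈ V := by
    rw [hV, Submodule.mem_map]
    refine ⟨fun d => c d.1, ?_, ?_⟩
    · rw [LinearMap.mem_ker]
      funext r
      rw [Matrix.toLin'_apply, Matrix.mulVec, dotProduct, Pi.zero_apply, ← hc1 r.1 r.2,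
        ← sum_coe_sort De]
      apply sum_congr rfl
      intro d _
      rw [hM, Matrix.of_apply, mul_comm]
    · rw [hΨ, Fintype.linearCombination_apply]
      rw [sum_coe_sort De (fun d => c d •
        (if d.1 + d.2 = e then (Polynomial.X : Polynomial ℂ) ^ d.1 else 0))]
      symm
      refine sum_of_injOn (fun i => (i, e - i)) (fun i _ i' _ hii => (Prod.mk.inj hii).1) ?_ ?_ ?_
      · intro i hi
        have hi' := mem_range.1 (mem_coe.1 hi)
        rw [mem_coe, hDe, mem_filter]
        refine ⟨hTD ?_, ?_⟩
        · rw [mem_triD]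
          simp only
          omega
        · simp only
          omega
      · intro d _ hd
        by_cases h2 : d.1 + d.2 = e
        · exfalso
          apply hd
          refine ⟨d.1, ?_, ?_⟩
          · rw [mem_coe, mem_range]
            omega
          · ext
            · rfl
            · simp only
              omega
        · rw [if_neg h2, smul_zero]
      · intro i hi
        rw [mem_range] at hi
        simp only
        rw [if_pos (by omega), Polynomial.smul_eq_C_mul]
  have h0 := hP2 c hc2 hG
  intro d hd
  by_cases hde : d.1 + d.2 ≤ e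
  · exact h0 d (by rw [← hfilt, mem_filter]; exact ⟨hd, hde⟩)
  · refine hP1' c ?_ d (by rw [mem_filter]; exact ⟨hd, by omega⟩)
    intro r hr
    refine Eq.trans ?_ (hc1 r hr)
    apply sum_subset
    · intro x hx
      rw [mem_filter] at hx
      rw [mem_filter]
      exact ⟨hx.1, by omega⟩
    · intro x hx hx'
      rw [mem_filter] at hx
      rw [mem_filter] at hx'
      have hxe : x.1 + x.2 ≤ e := by
        by_contra hcon
        exact hx' ⟨hx.1, by omega⟩
      rw [h0 x (by rw [← hfilt, mem_filter]; exact ⟨hx.1, hxe⟩), zero_mul]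

end Pool.Agent.Helper69.UN
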