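import Pool.Agent.Helper79.UN.NGoals
import Pool.Agent.Helper79.UN.Lib

/-!
# Names of sets of pairs
-/

noncomputable section

namespace UN.PkS2

open Pool.Agent.Helper97.Ku NU UL

variable {L : Type} [CompleteBooleanAlgebra L]

theorem iffV_self (a : L) : iffV a a = ⊤ := by
  unfold iffV
  rw [himp_self, inf_idem]

theorem s2_eq (K : BSet L) (θ : BSet L → BSet L → L) : s2 K θ =
    BSet.mk (K.ix × K.ix) (fun p => kpr (K.el p.1) (K.el p.2))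
      (fun p => K.bv p.1 ⊓ (K.bv p.2 ⊓ θ (K.el p.1) (K.el p.2))) := by
  cases K
  rfl

theorem kpr_eq (a b c d : BSet L) : (kpr a b).eq (kpr c d) = a.eq c ⊓ b.eq d :=
  (Lib.par L).2.1 a b c d

theorem ext_l (z y : BSet L) : BSet.Ext (fun x => z.eq (kpr x y)) := fun x x' => by
  have h := BSet.eq_trans z (kpr x y) (kpr x' y)
  rw [kpr_eq, BSet.eq_refl, inf_top_eq] at h
  rw [inf_comm]
  exact h

theorem ext_r (z x : BSet L) : BSet.Ext (fun y => z.eq (kpr x y)) := fun y y' => by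
  have h := BSet.eq_trans z (kpr x y) (kpr x y')
  rw [kpr_eq, BSet.eq_refl, top_inf_eq] at h
  rw [inf_comm]
  exact h

theorem sup_eq {φ : BSet L → L} (h : BSet.Ext φ) (x : BSet L) :
    ⨆ x' : BSet L, (x.eq x' ⊓ φ x') = φ x := by
  apply le_antisymm
  · refine iSup_le fun x' => ?_
    rw [BSet.eq_comm' x x']
    exact h x' x
  · refine le_trans ?_ (le_iSup _ x)
    rw [BSet.eq_refl, top_inf_eq]

section

variable {K : BSet L} {θ : BSet L → BSet L → L} (h1 : ∀ x, BSet.Ext (θ x))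
  (h2 : ∀ y, BSet.Ext (fun x => θ x y))

include h1 h2

theorem mem_s2 (z : BSet L) : z.mem (s2 K θ) =
    ⨆ x : BSet L, ⨆ y : BSet L, (x.mem K ⊓ (y.mem K ⊓ (prV z x y ⊓ θ x y))) := by
  have h3 : ∀ x : BSet L, ⨆ y : BSet L, (x.mem K ⊓ (y.mem K ⊓ (prV z x y ⊓ θ x y))) =
      x.mem K ⊓ ⨆ b, (K.bv b ⊓ (z.eq (kpr x (K.el b)) ⊓ θ x (K.el b))) := by
    intro x
    rw [← inf_iSup_eq, BSet.iSup_mem K (fun y => prV z x y ⊓ θ x y)]
    · simp only [(Lib.par L).1]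
    · simp only [(Lib.par L).1]
      exact (ext_r z x).inf (h1 x)
  simp only [h3]
  rw [BSet.iSup_mem K (fun x => ⨆ b, (K.bv b ⊓ (z.eq (kpr x (K.el b)) ⊓ θ x (K.el b))))
    (BSet.Ext.iSup fun b => (BSet.Ext.const _).inf ((ext_l z _).inf (h2 _)))]
  rw [s2_eq, BSet.mem_mk, iSup_prod]
  refine iSup_congr fun a => ?_
  rw [inf_iSup_eq]
  refine iSup_congr fun b => ?_
  rw [inf_assoc, inf_assoc, inf_comm (θ (K.el a) (K.el b))]

theorem ap_s2 (x y : BSet L) : apV (s2 K θ) x y = x.mem K ⊓ (y.mem K ⊓ θ x y) := by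
  rw [(Lib.par L).2.2, mem_s2 h1 h2]
  have h3 : ∀ x' y' : BSet L, x'.mem K ⊓ (y'.mem K ⊓ (prV (kpr x y) x' y' ⊓ θ x' y')) =
      x.eq x' ⊓ (x'.mem K ⊓ (y.eq y' ⊓ (y'.mem K ⊓ θ x' y'))) := by
    intro x' y'
    rw [(Lib.par L).1, kpr_eq]
    ac_rfl
  simp only [h3]
  have h4 : ∀ x' : BSet L, ⨆ y' : BSet L, (x.eq x' ⊓ (x'.mem K ⊓ (y.eq y' ⊓
      (y'.mem K ⊓ θ x' y')))) = x.eq x' ⊓ (x'.mem K ⊓ (y.mem K ⊓ θ x' y)) := by
    intro x'
    rw [← inf_iSup_eq, ← inf_iSup_eq,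
      sup_eq (φ := fun y' => y'.mem K ⊓ θ x' y') ((BSet.Ext.mem_left K).inf (h1 x'))]
  simp only [h4]
  exact sup_eq (φ := fun x' => x'.mem K ⊓ (y.mem K ⊓ θ x' y))
    ((BSet.Ext.mem_left K).inf ((BSet.Ext.const _).inf (h2 y))) x

end

theorem s2_pf (cmp_ : U_CMP) : U_S2 := by
  intro L _ K θ h1 h2
  refine ⟨mem_s2 h1 h2, ap_s2 h1 h2, ?_, ?_⟩
  · unfold isSqrV
    rw [iInf_eq_top]
    intro z
    rw [mem_s2 (fun _ => BSet.Ext.const _) (fun _ => BSet.Ext.const _)]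
    simp only [inf_top_eq]
    exact iffV_self _
  · unfold isProjV
    rw [iInf_eq_top]
    intro x
    rw [(cmp_ L K).1 _ (BSet.Ext.iSup fun y => (BSet.Ext.const _).inf (h2 y))]
    simp only [ap_s2 h1 h2]
    rw [← inf_iSup_eq, ← inf_assoc, inf_idem]
    exact iffV_self _

end UN.PkS2
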