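import Pool.Agent.Helper35.NW.ZD2

set_option autoImplicit false

namespace Pool.Agent.Helper69.UN

open Pool.Agent.Helper52.Wq2
open Pool.Agent.Helper61.NW
open Pool.Agent.Helper35.NW

universe u

/-- **ZD2** for all generating sets, finite or infinite. -/
theorem zd {Γ : Type u} [Group Γ] (S : Set Γ) (hS : IsGen S) (hbig : Big2 Γ) : KN (cay S) := by
  obtain ⟨z, w, hz, hinj, hconj, hidx⟩ := hbig
  have hzw : ∀ i j : ℤ, w ^ j * z ^ i = z ^ i * w ^ j := by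
    intro i j
    exact ((show Commute w z from hz).zpow_zpow j i).eq
  obtain ⟨P, hPf, hPc, hP1, hPw⟩ := exists_conn hS w
  obtain ⟨B, hBf, hBc, hB1, hBz'⟩ := exists_conn_fin hS _ hconj
  have hBz : ∀ g : Γ, g⁻¹ * z * g ∈ B := fun g => hBz' ⟨g, rfl⟩
  obtain ⟨x, hx⟩ := exists_far (Subgroup.closure {z, w}) hidx
    (Set.image2 (fun p b => p * b⁻¹) P B) (hPf.image2 _ hBf)
  obtain ⟨K, hKf, hKc, hK1, hKx⟩ := exists_conn hS x
  have hzH : z ∈ Subgroup.closure {z, w} := Subgroup.subset_closure (by simp)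
  have hwH : w ∈ Subgroup.closure {z, w} := Subgroup.subset_closure (by simp)
  -- injectivity
  have hI : Function.Injective (fun p : ℤ × ℤ => w ^ p.1 * z ^ p.2) := by
    rintro ⟨n, l⟩ ⟨n', l'⟩ h
    have h : w ^ n * z ^ l = w ^ n' * z ^ l' := h
    have h2 : w ^ (n - n') * z ^ (l - l') = 1 := by
      rw [zpow_sub, zpow_sub]
      calc w ^ n * (w ^ n')⁻¹ * (z ^ l * (z ^ l')⁻¹)
          = (w ^ n')⁻¹ * (w ^ n * z ^ l) * (z ^ l')⁻¹ := by
            rw [← zpow_neg, ← zpow_add, ← mul_assoc, ← mul_assoc, ← zpow_add, add_comm]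
        _ = 1 := by rw [h]; group
    obtain ⟨h3, h4⟩ := hinj _ _ h2
    rw [Prod.mk.injEq]
    constructor <;> omega
  have hzi : Function.Injective (fun i : ℤ => z ^ i) := by
    intro i j h
    have h : z ^ i = z ^ j := h
    have := @hI (0, i) (0, j) (by simp [h])
    simpa using this
  let E : Set Γ := Set.image2 (fun b k => x * b * k⁻¹) B K ∪
    Set.image2 (fun b b' => x * b' * b⁻¹ * x⁻¹) B B
  have hEf : E.Finite := (hBf.image2 _ hKf).union (hBf.image2 _ hBf)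
  obtain ⟨N, hN0, hN⟩ : ∃ N : ℕ, 0 < N ∧ ∀ n l : ℤ, (N : ℤ) ≤ |n| → w ^ n * z ^ l ∉ E := by
    have h1 : ((fun p : ℤ × ℤ => w ^ p.1 * z ^ p.2) ⁻¹' E).Finite :=
      hEf.preimage hI.injOn
    have h2 := (h1.image (fun p : ℤ × ℤ => p.1.natAbs)).bddAbove
    obtain ⟨M, hM⟩ := h2
    refine ⟨M + 1, Nat.succ_pos _, ?_⟩
    intro n l hn hE
    have := hM ⟨(n, l), hE, rfl⟩
    simp only at this
    rw [Int.abs_eq_natAbs] at hn
    have h5 : M + 1 ≤ n.natAbs := Int.ofNat_le.1 hn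
    omega
  let t : ℕ → Γ := fun k => w ^ ((N : ℤ) * k) * x
  let T : ℕ → Set Γ := fun k => ⋃ i : ℤ, tr (z ^ i * t k) B
  have hTmem : ∀ k y, y ∈ T k ↔ ∃ l : ℤ, ∃ b ∈ B, y = z ^ l * t k * b := by
    intro k y
    constructor
    · intro h
      obtain ⟨l, hl⟩ := Set.mem_iUnion.1 h
      exact ⟨l, _, hl, by group⟩
    · rintro ⟨l, b, hb, rfl⟩
      refine Set.mem_iUnion.2 ⟨l, ?_⟩
      rw [mem_tr, inv_mul_cancel_left]
      exact hb
  have hTc : ∀ k, Conn (cay S) (T k) := by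
    intro k
    refine union_chain _ (fun i => tr_conn hS _ hBc) ?_
    intro i
    refine ⟨z ^ (i + 1) * t k, ?_, ?_⟩
    · rw [mem_tr]
      have : (z ^ i * t k)⁻¹ * (z ^ (i + 1) * t k) = (t k)⁻¹ * z * t k := by
        rw [zpow_add_one]; group
      rw [this]; exact hBz _
    · rw [mem_tr, inv_mul_cancel]; exact hB1
  have hTz : ∀ k (e : ℤ) y, y ∈ T k → z ^ e * y ∈ T k := by
    intro k e y hy
    rw [hTmem] at hy ⊢
    obtain ⟨l, b, hb, rfl⟩ := hy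
    refine ⟨e + l, b, hb, ?_⟩
    rw [zpow_add]
    simp only [mul_assoc]
  have htT : ∀ k, t k ∈ T k := by
    intro k
    rw [hTmem]
    exact ⟨0, 1, hB1, by simp⟩
  have hgap : ∀ i k : ℕ, i ≠ k → (N : ℤ) ≤ |(N : ℤ) * i - (N : ℤ) * k| := by
    intro i k hik
    rw [← mul_sub, abs_mul, abs_of_nonneg (by positivity : (0 : ℤ) ≤ N)]
    have : 1 ≤ |(i : ℤ) - k| := Int.one_le_abs (by omega)
    nlinarith
  -- (a)
  have ha : ∀ (n : ℤ) (k : ℕ), ∀ p ∈ P, w ^ n * p ∉ T k := by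
    intro n k p hp h
    rw [hTmem] at h
    obtain ⟨l, b, hb, he⟩ := h
    apply hx (z ^ (-l) * w ^ (n - (N : ℤ) * k)) (Subgroup.mul_mem _
      (Subgroup.zpow_mem _ hzH _) (Subgroup.zpow_mem _ hwH _)) (p * b⁻¹) ⟨p, hp, b, hb, rfl⟩
    have he' : w ^ n * p = w ^ ((N : ℤ) * k) * (z ^ l * x) * b := by
      rw [he, ← mul_assoc (w ^ ((N : ℤ) * k)), hzw]
      simp only [t, mul_assoc]
    have h3 : w ^ (n - (N : ℤ) * k) = (w ^ ((N : ℤ) * k))⁻¹ * w ^ n := by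
      rw [← zpow_neg, ← zpow_add]; congr 1; ring
    rw [h3]
    calc x = z ^ (-l) * (w ^ ((N : ℤ) * k))⁻¹ * (w ^ ((N : ℤ) * k) * (z ^ l * x) * b) * b⁻¹ := by
          group
      _ = z ^ (-l) * ((w ^ ((N : ℤ) * k))⁻¹ * w ^ n) * (p * b⁻¹) := by
          rw [← he']; group
  -- (b)
  have hb' : ∀ i k : ℕ, i ≠ k → ∀ y ∈ K, w ^ ((N : ℤ) * i) * y ∉ T k := by
    intro i k hik y hy h
    rw [hTmem] at h
    obtain ⟨l, b, hb, he⟩ := h
    apply hN ((N : ℤ) * i - (N : ℤ) * k) (-l) (hgap i k hik)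
    left
    refine ⟨b, hb, y, hy, ?_⟩
    show x * b * y⁻¹ = _
    have he' : w ^ ((N : ℤ) * i) * y = w ^ ((N : ℤ) * k) * (z ^ l * x) * b := by
      rw [he, ← mul_assoc (w ^ ((N : ℤ) * k)), hzw]
      simp only [t, mul_assoc]
    have h3 : w ^ ((N : ℤ) * i - (N : ℤ) * k) = (w ^ ((N : ℤ) * k))⁻¹ * w ^ ((N : ℤ) * i) := by
      rw [← zpow_neg, ← zpow_add]; congr 1; ring
    rw [hzw, h3]
    calc x * b * y⁻¹ = z ^ (-l) * (w ^ ((N : ℤ) * k))⁻¹ *
          (w ^ ((N : ℤ) * k) * (z ^ l * x) * b) * y⁻¹ := by group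
      _ = z ^ (-l) * ((w ^ ((N : ℤ) * k))⁻¹ * w ^ ((N : ℤ) * i)) := by
          rw [← he']; group
  -- (c)
  have hc : ∀ i k : ℕ, ∀ y, y ∈ T i → y ∈ T k → i = k := by
    intro i k y hyi hyk
    by_contra hik
    rw [hTmem] at hyi hyk
    obtain ⟨l, b, hb, he⟩ := hyi
    obtain ⟨l', b', hb2, he'⟩ := hyk
    apply hN ((N : ℤ) * i - (N : ℤ) * k) (l - l') (hgap i k hik)
    right
    refine ⟨b, hb, b', hb2, ?_⟩
    show x * b' * b⁻¹ * x⁻¹ = _
    have e1 : y = w ^ ((N : ℤ) * i) * (z ^ l * x) * b := by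
      rw [he, ← mul_assoc (w ^ ((N : ℤ) * i)), hzw]
      simp only [t, mul_assoc]
    have e2 : y = w ^ ((N : ℤ) * k) * (z ^ l' * x) * b' := by
      rw [he', ← mul_assoc (w ^ ((N : ℤ) * k)), hzw]
      simp only [t, mul_assoc]
    have h3 : w ^ ((N : ℤ) * i - (N : ℤ) * k) = (w ^ ((N : ℤ) * k))⁻¹ * w ^ ((N : ℤ) * i) := by
      rw [← zpow_neg, ← zpow_add]; congr 1; ring
    have h4 : z ^ (l - l') = z ^ (-l') * z ^ l := by
      rw [← zpow_add]; congr 1; ring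
    rw [h4, ← mul_assoc, hzw (-l'), h3]
    calc x * b' * b⁻¹ * x⁻¹ = z ^ (-l') * (w ^ ((N : ℤ) * k))⁻¹ *
          (w ^ ((N : ℤ) * k) * (z ^ l' * x) * b') * b⁻¹ * x⁻¹ := by group
      _ = z ^ (-l') * ((w ^ ((N : ℤ) * k))⁻¹ * w ^ ((N : ℤ) * i)) * z ^ l := by
          rw [← e2, e1]; group
  -- the paths
  have hchain : ∀ (a : ℤ) (m : ℕ), ∃ L : Set Γ, L.Finite ∧ Conn (cay S) L ∧ w ^ a ∈ L ∧
      w ^ (a + m) ∈ L ∧ ∀ y ∈ L, ∃ n : ℤ, ∃ p ∈ P, y = w ^ n * p := by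
    intro a m
    induction m with
    | zero =>
      refine ⟨tr (w ^ a) P, tr_fin _ hPf, tr_conn hS _ hPc, ?_, ?_, ?_⟩
      · rw [mem_tr, inv_mul_cancel]; exact hP1
      · rw [mem_tr, Nat.cast_zero, add_zero, inv_mul_cancel]; exact hP1
      · intro y hy
        exact ⟨a, _, hy, by group⟩
    | succ m ih =>
      obtain ⟨L, h1, h2, h3, h4, h5⟩ := ih
      refine ⟨L ∪ tr (w ^ (a + m)) P, h1.union (tr_fin _ hPf),
        union_meet h2 (tr_conn hS _ hPc) h4 ?_, Or.inl h3, Or.inr ?_, ?_⟩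
      · rw [mem_tr, inv_mul_cancel]; exact hP1
      · rw [mem_tr]
        have : (w ^ (a + m))⁻¹ * w ^ (a + ((m + 1 : ℕ) : ℤ)) = w := by
          rw [Nat.cast_succ, ← add_assoc, zpow_add_one, inv_mul_cancel_left]
        rw [this]; exact hPw
      · rintro y (hy | hy)
        · exact h5 y hy
        · exact ⟨a + m, _, hy, by group⟩
  have hL : ∀ i j : ℕ, i < j → ∃ L : Set Γ, L.Finite ∧ Conn (cay S) L ∧ t i ∈ L ∧ t j ∈ L ∧
      ∀ k, k ≠ i → k ≠ j → ∀ y ∈ L, y ∉ T k := by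
    intro i j hij
    obtain ⟨L, h1, h2, h3, h4, h5⟩ := hchain ((N : ℤ) * i) (N * (j - i))
    have hcast : (N : ℤ) * i + ((N * (j - i) : ℕ) : ℤ) = (N : ℤ) * j := by
      rw [Nat.cast_mul, Nat.cast_sub hij.le]; ring
    rw [hcast] at h4
    refine ⟨(tr (w ^ ((N : ℤ) * i)) K ∪ L) ∪ tr (w ^ ((N : ℤ) * j)) K,
      ((tr_fin _ hKf).union h1).union (tr_fin _ hKf),
      union_meet (union_meet (tr_conn hS _ hKc) h2 (a := w ^ ((N : ℤ) * i)) ?_ h3)
        (tr_conn hS _ hKc) (a := w ^ ((N : ℤ) * j)) (Or.inr h4) ?_, ?_, ?_, ?_⟩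
    · rw [mem_tr, inv_mul_cancel]; exact hK1
    · rw [mem_tr, inv_mul_cancel]; exact hK1
    · left; left
      rw [mem_tr, inv_mul_cancel_left]; exact hKx
    · right
      rw [mem_tr, inv_mul_cancel_left]; exact hKx
    · rintro k hki hkj y ((hy | hy) | hy)
      · have := hb' i k (Ne.symm hki) _ hy
        rwa [mul_inv_cancel_left] at this
      · obtain ⟨n, p, hp, rfl⟩ := h5 y hy
        exact ha n k p hp
      · have := hb' j k (Ne.symm hkj) _ hy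
        rwa [mul_inv_cancel_left] at this
  have hA : ∀ i j : ℕ, ∃ A : Set Γ, A.Finite ∧ (i < j → Conn (cay S) A ∧ t i ∈ A ∧
      (∀ k, k ≠ i → ∀ y ∈ A, y ∉ T k) ∧ ∃ a ∈ A, ∃ b ∈ T j, (cay S).Adj a b) := by
    intro i j
    by_cases hij : i < j
    · obtain ⟨L, h1, h2, h3, h4, h5⟩ := hL i j hij
      obtain ⟨A, g1, g2, g3, g4, g5⟩ := cut h2 (T := T j) h3
        (fun h => hij.ne (hc i j _ (htT i) h)) h4 (htT j)
      refine ⟨A, h1.subset g1, fun _ => ⟨g4, g2, ?_, g5⟩⟩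
      intro k hk y hy
      by_cases hkj : k = j
      · rw [hkj]; exact g3 y hy
      · exact h5 k hk hkj y (g1 hy)
    · exact ⟨∅, Set.finite_empty, fun h => absurd h hij⟩
  choose A hAf hA using hA
  let A' : ℕ → Set Γ := fun n => A (Nat.unpair n).1 (Nat.unpair n).2
  obtain ⟨e, he⟩ := exists_seq (α := ℤ) (fun n prev e => ∀ m (hm : m < n), ∀ y ∈ A' n,
      ∀ y' ∈ A' m, z ^ e * y ≠ z ^ (prev m hm) * y') (by
    intro n prev
    have hD : (⋃ m : Fin n, Set.image2 (fun y y' => z ^ (prev m.1 m.2) * y' * y⁻¹)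
        (A' n) (A' m.1)).Finite :=
      Set.finite_iUnion (fun m => (hAf _ _).image2 _ (hAf _ _))
    obtain ⟨e, he⟩ := (hD.preimage (f := fun i : ℤ => z ^ i) hzi.injOn).exists_notMem
    refine ⟨e, ?_⟩
    intro m hm y hy y' hy' heq
    apply he
    refine Set.mem_iUnion.2 ⟨⟨m, hm⟩, y, hy, y', hy', ?_⟩
    show z ^ (prev m hm) * y' * y⁻¹ = z ^ e
    rw [← heq, mul_inv_cancel_right])
  have he2 : ∀ i j k l : ℕ, Nat.pair i j < Nat.pair k l → ∀ a ∈ A k l, ∀ b ∈ A i j,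
      z ^ (e (Nat.pair k l)) * a ≠ z ^ (e (Nat.pair i j)) * b := by
    intro i j k l h a ha b hb
    refine he _ _ h a ?_ b ?_
    · show a ∈ A (Nat.unpair (Nat.pair k l)).1 (Nat.unpair (Nat.pair k l)).2
      rw [Nat.unpair_pair]; exact ha
    · show b ∈ A (Nat.unpair (Nat.pair i j)).1 (Nat.unpair (Nat.pair i j)).2
      rw [Nat.unpair_pair]; exact hb
  let φ : ℕ → Set Γ := fun i => T i ∪ ⋃ j : {j : ℕ // i < j},
    tr (z ^ (e (Nat.pair i j.1))) (A i j.1)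
  have hφA : ∀ i j, i < j → ∀ a ∈ A i j, z ^ (e (Nat.pair i j)) * a ∈ φ i := by
    intro i j hij a ha
    refine Or.inr (Set.mem_iUnion.2 ⟨⟨j, hij⟩, ?_⟩)
    rw [mem_tr, inv_mul_cancel_left]; exact ha
  refine ⟨φ, ?_, ?_, ?_⟩
  · intro i
    refine union_star (hTc i) _ (fun j => tr_conn hS _ (hA i j.1 j.2).1) ?_
    intro j
    refine ⟨z ^ (e (Nat.pair i j.1)) * t i, hTz _ _ _ (htT i), ?_⟩
    rw [mem_tr, inv_mul_cancel_left]
    exact (hA i j.1 j.2).2.1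
  · have mix : ∀ i k y, y ∈ T i → (y ∈ ⋃ j : {j : ℕ // k < j},
        tr (z ^ (e (Nat.pair k j.1))) (A k j.1)) → i = k := by
      intro i k y hy hy2
      obtain ⟨j, hj⟩ := Set.mem_iUnion.1 hy2
      by_contra hik
      refine (hA k j.1 j.2).2.2.1 i hik _ hj ?_
      rw [← zpow_neg]
      exact hTz _ _ _ hy
    rintro i k y (hy | hy) (hy2 | hy2)
    · exact hc i k y hy hy2
    · exact mix i k y hy hy2
    · exact (mix k i y hy2 hy).symm
    · obtain ⟨j, hj⟩ := Set.mem_iUnion.1 hy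
      obtain ⟨l, hl⟩ := Set.mem_iUnion.1 hy2
      have hy' : ∀ g : Γ, y = g * (g⁻¹ * y) := fun g => by group
      rcases lt_trichotomy (Nat.pair i j.1) (Nat.pair k l.1) with h | h | h
      · refine absurd ?_ (he2 _ _ _ _ h _ hl _ hj)
        rw [← hy', ← hy']
      · exact (Nat.pair_eq_pair.1 h).1
      · refine absurd ?_ (he2 _ _ _ _ h _ hj _ hl)
        rw [← hy', ← hy']
  · have key : ∀ i k, i < k → ∃ a ∈ φ i, ∃ b ∈ φ k, (cay S).Adj a b := by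
      intro i k hik
      obtain ⟨a, ha, b, hb, hab⟩ := (hA i k hik).2.2.2
      refine ⟨_, hφA i k hik a ha, z ^ (e (Nat.pair i k)) * b, Or.inl (hTz _ _ _ hb), ?_⟩
      rw [cay_adj hS] at hab ⊢
      have : (z ^ e (Nat.pair i k) * a)⁻¹ * (z ^ e (Nat.pair i k) * b) = a⁻¹ * b := by group
      rw [this]; exact hab
    intro i k hik
    have hne : i ≠ k := hik
    rcases lt_or_gt_of_ne hne with h | h
    · exact key i k h
    · obtain ⟨a, ha, b, hb, hab⟩ := key k i h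
      exact ⟨b, hb, a, ha, hab.symm⟩

end Pool.Agent.Helper69.UN
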